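import Pool.Agent.X25.SIC.Win

/-!
# The periodised windowed cubic phase and its Weyl-Heisenberg overlaps
-/

set_option autoImplicit false

open Finset

namespace Pool.Agent.X25.SIC

variable {d : ℕ}

/-- the shift operator: `X|j⟩ = |j+1⟩` -/
def shiftX (v : ZMod d → ℂ) : ZMod d → ℂ := fun j => v (j - 1)

/-- the clock operator: `Z|j⟩ = ω^j |j⟩`, `ω = exp (2 π i / d)` -/
noncomputable def clockZ (v : ZMod d → ℂ) : ZMod d → ℂ :=
  fun j => Complex.exp (2 * Real.pi * Complex.I / d) ^ j.val * v j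

/-- the displacement operators `D_{a,b} = X^a Z^b` -/
noncomputable def disp (a b : ZMod d) (v : ZMod d → ℂ) : ZMod d → ℂ :=
  shiftX^[a.val] (clockZ^[b.val] v)

/-- the inner product `⟨u|v⟩` -/
noncomputable def braket [NeZero d] (u v : ZMod d → ℂ) : ℂ :=
  ∑ j : ZMod d, (starRingEnd ℂ) (u j) * v j

lemma shiftX_iter (k : ℕ) (v : ZMod d → ℂ) (j : ZMod d) : (shiftX^[k] v) j = v (j - k) := by
  induction k generalizing v j with
  | zero => simp
  | succ k ih =>
    rw [Function.iterate_succ_apply, ih]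
    unfold shiftX
    congr 1
    push_cast; ring

lemma clockZ_iter (k : ℕ) (v : ZMod d → ℂ) (j : ZMod d) :
    (clockZ^[k] v) j = (Complex.exp (2 * Real.pi * Complex.I / d) ^ j.val) ^ k * v j := by
  induction k generalizing v j with
  | zero => simp
  | succ k ih =>
    rw [Function.iterate_succ_apply, ih]
    unfold clockZ
    ring

lemma omega_pow (n b : ℕ) :
    (Complex.exp (2 * Real.pi * Complex.I / d) ^ n) ^ b = ee ((b : ℝ) * n / d) := by
  unfold ee
  rw [← pow_mul, ← Complex.exp_nat_mul]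
  congr 1
  push_cast; ring

lemma braket_disp [NeZero d] (a b : ZMod d) (v : ZMod d → ℂ) :
    braket v (disp a b v) =
      ∑ k : ZMod d, (starRingEnd ℂ) (v (k + a)) * (ee ((b.val : ℝ) * k.val / d) * v k) := by
  unfold braket disp
  rw [← Equiv.sum_comp (Equiv.addRight a)]
  refine Finset.sum_congr rfl fun k _ => ?_
  simp only [Equiv.coe_addRight]
  rw [shiftX_iter, clockZ_iter]
  have h1 : k + a - ((a.val : ℕ) : ZMod d) = k := by
    rw [ZMod.natCast_zmod_val]; ring
  rw [h1, omega_pow]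

/-- the periodised windowed cubic phase -/
noncomputable def psi (d p : ℕ) (k : ZMod d) : ℂ := g d p k.val + g d p (k.val + d)

lemma g_le (hd : 0 < d) (p : ℕ) (n : ℤ) (hn : n ≤ 0) : g d p n = 0 := by
  unfold g; rw [w_le hd n hn]; simp

lemma g_ge (hd : 0 < d) (p : ℕ) (n : ℤ) (hn : 2 * (d : ℤ) ≤ n) : g d p n = 0 := by
  unfold g; rw [w_ge hd n hn]; simp

lemma psi_shift [NeZero d] (hd : 0 < d) (p n a : ℕ) (hn : n < d) (ha : a < d) :
    psi d p ((n : ZMod d) + (a : ZMod d)) =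
      g d p ((n : ℤ) + a - d) + g d p ((n : ℤ) + a) + g d p ((n : ℤ) + a + d) := by
  unfold psi
  rw [← Nat.cast_add, ZMod.val_natCast]
  rcases Nat.lt_or_ge (n + a) d with h | h
  · rw [Nat.mod_eq_of_lt h, g_le hd p ((n : ℤ) + a - d) (by omega)]
    push_cast; ring
  · have h1 : (n + a) % d = n + a - d := by
      rw [Nat.mod_eq_sub_mod h, Nat.mod_eq_of_lt (by omega)]
    rw [h1, g_ge hd p ((n : ℤ) + a + d) (by omega)]
    rw [Nat.cast_sub h]
    push_cast
    rw [show (n : ℤ) + a - d + d = n + a by ring]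
    ring

lemma ee_nat (k : ℤ) : ee (k : ℝ) = 1 := by
  unfold ee
  rw [Complex.exp_eq_one_iff]
  exact ⟨k, by push_cast; ring⟩

lemma overlap_eq [NeZero d] (hd : 0 < d) (p : ℕ) (a b : ZMod d) :
    braket (psi d p) (disp a b (psi d p)) =
      T d p ((a.val : ℤ) - 2 * d) b.val + T d p ((a.val : ℤ) - d) b.val +
        T d p (a.val : ℤ) b.val + T d p ((a.val : ℤ) + d) b.val := by
  have hd' : (d : ℝ) ≠ 0 := by exact_mod_cast hd.ne'
  rw [braket_disp, sum_zmod]
  have ha : a.val < d := ZMod.val_lt a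
  have h1 : ∀ n ∈ range d, (starRingEnd ℂ) (psi d p ((n : ZMod d) + a)) *
      (ee ((b.val : ℝ) * ((n : ZMod d).val : ℝ) / d) * psi d p (n : ZMod d)) =
      (starRingEnd ℂ) (g d p ((n : ℤ) + a.val - d) + g d p ((n : ℤ) + a.val) +
        g d p ((n : ℤ) + a.val + d)) * (ee ((b.val : ℝ) * n / d) * (g d p n + g d p (n + d))) := by
    intro n hn
    rw [Finset.mem_range] at hn
    have e1 : psi d p ((n : ZMod d) + a) = g d p ((n : ℤ) + a.val - d) +
        g d p ((n : ℤ) + a.val) + g d p ((n : ℤ) + a.val + d) := by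
      have := psi_shift hd p n a.val hn ha
      rwa [ZMod.natCast_zmod_val] at this
    rw [e1]
    unfold psi
    rw [ZMod.val_cast_of_lt hn]
  rw [Finset.sum_congr rfl h1]
  unfold T
  rw [← Finset.sum_add_distrib, ← Finset.sum_add_distrib, ← Finset.sum_add_distrib,
    show range (2 * d) = range (d + d) by rw [two_mul], Finset.sum_range_add,
    ← Finset.sum_add_distrib]
  refine Finset.sum_congr rfl fun n hn => ?_
  rw [Finset.mem_range] at hn
  have z1 : g d p ((n : ℤ) + ((a.val : ℤ) - 2 * d)) = 0 := g_le hd p _ (by omega)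
  have z2 : g d p (((d + n : ℕ) : ℤ) + ((a.val : ℤ) + d)) = 0 := g_ge hd p _ (by push_cast; omega)
  rw [z1, z2]
  have e0 : ee (((b.val : ℤ) : ℝ) * ((d + n : ℕ) : ℝ) / d) = ee ((b.val : ℝ) * n / d) := by
    have h2 : ((b.val : ℤ) : ℝ) * ((d + n : ℕ) : ℝ) / d = ((b.val : ℤ) : ℝ) + (b.val : ℝ) * n / d := by
      push_cast; field_simp
    rw [h2, ee_add, ee_nat, one_mul]
  rw [e0]
  have e1 : ((n : ℤ) + ((a.val : ℤ) - d)) = (n : ℤ) + a.val - d := by ring
  have e2 : ((n : ℤ) + ((a.val : ℤ) + d)) = (n : ℤ) + a.val + d := by ring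
  have e3 : (((d + n : ℕ) : ℤ) + ((a.val : ℤ) - 2 * d)) = (n : ℤ) + a.val - d := by
    push_cast; ring
  have e4 : (((d + n : ℕ) : ℤ) + ((a.val : ℤ) - d)) = (n : ℤ) + a.val := by
    push_cast; ring
  have e5 : (((d + n : ℕ) : ℤ) + (a.val : ℤ)) = (n : ℤ) + a.val + d := by
    push_cast; ring
  have e6 : (((d + n : ℕ) : ℤ)) = (n : ℤ) + d := by push_cast; ring
  rw [e1, e2, e3, e4, e5, e6, map_add, map_add, map_zero]
  push_cast
  ring

lemma T_far (hd : 0 < d) (p : ℕ) (s b : ℤ) (hs : s ≤ -(2 * d : ℤ)) : T d p s b = 0 := by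
  unfold T
  refine Finset.sum_eq_zero fun n hn => ?_
  rw [Finset.mem_range] at hn
  rw [g_le hd p ((n : ℤ) + s) (by omega)]
  simp

lemma T_diag [NeZero d] (hd : 0 < d) (p : ℕ) (b : ZMod d) :
    T d p 0 (b.val : ℤ) = if b = 0 then (d : ℂ) else 0 := by
  have hd' : (d : ℝ) ≠ 0 := by exact_mod_cast hd.ne'
  have hg : ∀ n : ℤ, g d p n * (starRingEnd ℂ) (g d p n) = ((w d n ^ 2 : ℝ) : ℂ) := by
    intro n
    rw [Complex.mul_conj, Complex.normSq_eq_norm_sq]
    unfold g
    rw [norm_mul, norm_ee, mul_one, Complex.norm_real, Real.norm_eq_abs, sq_abs]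
  unfold T
  rw [show range (2 * d) = range (d + d) by rw [two_mul], Finset.sum_range_add,
    ← Finset.sum_add_distrib]
  have h1 : ∀ n ∈ range d,
      g d p (n : ℤ) * (starRingEnd ℂ) (g d p ((n : ℤ) + 0)) * ee ((((b.val : ℤ)) : ℝ) * (n : ℝ) / d) +
      g d p ((d + n : ℕ) : ℤ) * (starRingEnd ℂ) (g d p (((d + n : ℕ) : ℤ) + 0)) *
        ee ((((b.val : ℤ)) : ℝ) * ((d + n : ℕ) : ℝ) / d) = ch (b * (n : ZMod d)) := by
    intro n hn
    rw [Finset.mem_range] at hn
    rw [add_zero, add_zero, hg, hg]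
    have e0 : ee (((b.val : ℤ) : ℝ) * ((d + n : ℕ) : ℝ) / d) = ee (((b.val : ℤ) : ℝ) * n / d) := by
      have h2 : ((b.val : ℤ) : ℝ) * ((d + n : ℕ) : ℝ) / d =
          ((b.val : ℤ) : ℝ) + ((b.val : ℤ) : ℝ) * n / d := by
        push_cast; field_simp
      rw [h2, ee_add, ee_nat, one_mul]
    have e1 : ee (((b.val : ℤ) : ℝ) * n / d) = ch (b * (n : ZMod d)) := by
      have : ((b.val : ℤ) : ℝ) * n / d = (((b.val : ℤ) * n : ℤ) : ℝ) / d := by push_cast; ring
      rw [this, ee_div]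
      congr 1
      push_cast
      rw [ZMod.natCast_zmod_val]
    have e2 : (((d + n : ℕ) : ℤ)) = (n : ℤ) + d := by push_cast; ring
    have h3 := w_sq hd (n : ℤ) (by omega) (by omega)
    rw [e0, e1, e2, ← add_mul, ← Complex.ofReal_add, h3]
    simp
  rw [Finset.sum_congr rfl h1]
  have := sum_ch b
  rw [sum_zmod] at this
  exact this

/-- the overlaps of the unnormalised vector -/
theorem overlaps {p : ℕ} [NeZero d] (hpp : p.Prime) (hd : 2 ≤ d) (hp : 2 * d < p) (hp4 : p ≤ 4 * d)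
    (a b : ZMod d) :
    (¬ (a = 0 ∧ b = 0) → ‖braket (psi d p) (disp a b (psi d p))‖ ≤ 56 * Real.sqrt d) ∧
    ((a = 0 ∧ b = 0) → ‖braket (psi d p) (disp a b (psi d p)) - d‖ ≤ 28 * Real.sqrt d) := by
  have hd0 : 0 < d := by omega
  have ha : a.val < d := ZMod.val_lt a
  have hsq : 0 ≤ Real.sqrt d := Real.sqrt_nonneg _
  have hT : ∀ s : ℤ, s ≠ 0 → |s| < 2 * d → ∀ b' : ℤ, ‖T d p s b'‖ ≤ 14 * Real.sqrt d :=
    fun s hs0 hs b' => T_bound hpp hd0 hp hp4 (by omega) s b' hs0 hs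
  have heq := overlap_eq hd0 p a b
  constructor
  · intro hab
    rw [heq]
    by_cases ha0 : a = 0
    · have hb0 : b ≠ 0 := fun h => hab ⟨ha0, h⟩
      have hav : a.val = 0 := by rw [ha0, ZMod.val_zero]
      rw [hav]
      have t1 : T d p (((0 : ℕ) : ℤ) - 2 * d) b.val = 0 := T_far hd0 p _ _ (by push_cast; omega)
      have t2 : T d p ((0 : ℕ) : ℤ) b.val = 0 := by
        have := T_diag hd0 p b
        rw [if_neg hb0] at this
        exact this
      rw [t1, t2]
      have h1 := hT (((0 : ℕ) : ℤ) - d) (by push_cast; omega) (by push_cast; rw [zero_sub, abs_neg, abs_of_nonneg (by omega)]; omega) b.val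
      have h2 := hT (((0 : ℕ) : ℤ) + d) (by push_cast; omega) (by push_cast; rw [zero_add, abs_of_nonneg (by omega)]; omega) b.val
      calc _ ≤ ‖T d p (((0 : ℕ) : ℤ) - d) b.val‖ + ‖T d p (((0 : ℕ) : ℤ) + d) b.val‖ := by
            rw [zero_add, add_zero]; exact norm_add_le _ _
        _ ≤ _ := by linarith
    · have hav : 0 < a.val := by
        rcases Nat.eq_zero_or_pos a.val with h | h
        · exact absurd ((ZMod.val_eq_zero a).1 h) ha0
        · exact h
      have h1 := hT ((a.val : ℤ) - 2 * d) (by omega) (by rw [abs_of_neg (by omega)]; omega) b.val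
      have h2 := hT ((a.val : ℤ) - d) (by omega) (by rw [abs_of_neg (by omega)]; omega) b.val
      have h3 := hT (a.val : ℤ) (by omega) (by rw [abs_of_pos (by omega)]; omega) b.val
      have h4 := hT ((a.val : ℤ) + d) (by omega) (by rw [abs_of_pos (by omega)]; omega) b.val
      calc _ ≤ ‖T d p ((a.val : ℤ) - 2 * d) b.val‖ + ‖T d p ((a.val : ℤ) - d) b.val‖ +
            ‖T d p (a.val : ℤ) b.val‖ + ‖T d p ((a.val : ℤ) + d) b.val‖ := by
            refine (norm_add_le _ _).trans ?_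
            have := @norm_add₃_le _ _ (T d p ((a.val : ℤ) - 2 * d) b.val) (T d p ((a.val : ℤ) - d) b.val) (T d p (a.val : ℤ) b.val)
            linarith
        _ ≤ _ := by linarith
  · rintro ⟨ha0, hb0⟩
    rw [heq]
    have hav : a.val = 0 := by rw [ha0, ZMod.val_zero]
    rw [hav]
    have t1 : T d p (((0 : ℕ) : ℤ) - 2 * d) b.val = 0 := T_far hd0 p _ _ (by push_cast; omega)
    have t2 : T d p ((0 : ℕ) : ℤ) b.val = d := by
      have := T_diag hd0 p b
      rw [if_pos hb0] at this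
      exact this
    rw [t1, t2]
    have h1 := hT (((0 : ℕ) : ℤ) - d) (by push_cast; omega) (by push_cast; rw [zero_sub, abs_neg, abs_of_nonneg (by omega)]; omega) b.val
    have h2 := hT (((0 : ℕ) : ℤ) + d) (by push_cast; omega) (by push_cast; rw [zero_add, abs_of_nonneg (by omega)]; omega) b.val
    calc _ = ‖T d p (((0 : ℕ) : ℤ) - d) b.val + T d p (((0 : ℕ) : ℤ) + d) b.val‖ := by
          congr 1; ring
      _ ≤ ‖T d p (((0 : ℕ) : ℤ) - d) b.val‖ + ‖T d p (((0 : ℕ) : ℤ) + d) b.val‖ := norm_add_le _ _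
      _ ≤ _ := by linarith

end Pool.Agent.X25.SIC
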