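import Mathlib

/-!
# Quadratic exponential sums with Lipschitz weights on `ZMod p`
-/

set_option autoImplicit false

open Finset

namespace Pool.Agent.X25.SIC

/-- the standard additive character -/
noncomputable abbrev ch {N : ℕ} [NeZero N] (x : ZMod N) : ℂ := ZMod.stdAddChar x

lemma ch_add {N : ℕ} [NeZero N] (x y : ZMod N) : ch (x + y) = ch x * ch y :=
  AddChar.map_add_eq_mul _ _ _

lemma ch_zero {N : ℕ} [NeZero N] : ch (0 : ZMod N) = 1 := AddChar.map_zero_eq_one _

lemma norm_ch {N : ℕ} [NeZero N] (x : ZMod N) : ‖ch x‖ = 1 := by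
  unfold ch
  rw [ZMod.stdAddChar_apply]
  exact Circle.norm_coe _

lemma ch_neg {N : ℕ} [NeZero N] (x : ZMod N) : ch (-x) = (starRingEnd ℂ) (ch x) := by
  have h1 : ch (-x) * ch x = 1 := by rw [← ch_add, neg_add_cancel, ch_zero]
  have h2 : (starRingEnd ℂ) (ch x) * ch x = 1 := by
    rw [mul_comm, Complex.mul_conj, Complex.normSq_eq_norm_sq, norm_ch]; simp
  have h3 : ch x ≠ 0 := by
    intro h; have := norm_ch x; rw [h] at this; simp at this
  exact mul_right_cancel₀ h3 (h1.trans h2.symm)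

lemma sum_ch {N : ℕ} [NeZero N] (t : ZMod N) :
    ∑ i : ZMod N, ch (t * i) = if t = 0 then (N : ℂ) else 0 := by
  split_ifs with h
  · simp [h, ch_zero, Finset.card_univ, ZMod.card]
  · exact AddChar.sum_eq_zero_of_ne_one (ZMod.isPrimitive_stdAddChar N h)

/-- the Fourier transform -/
noncomputable def hat {N : ℕ} [NeZero N] (W : ZMod N → ℂ) (m : ZMod N) : ℂ :=
  ∑ x : ZMod N, W x * ch (-(m * x))

/-- Parseval -/
lemma parseval {N : ℕ} [NeZero N] (W : ZMod N → ℂ) :
    ∑ m : ZMod N, ‖hat W m‖ ^ 2 = N * ∑ x : ZMod N, ‖W x‖ ^ 2 := by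
  have h : ((∑ m : ZMod N, ‖hat W m‖ ^ 2 : ℝ) : ℂ) = ((N * ∑ x : ZMod N, ‖W x‖ ^ 2 : ℝ) : ℂ) := by
    push_cast
    have h1 : ∀ m : ZMod N, ((‖hat W m‖ : ℂ)) ^ 2 =
        ∑ x : ZMod N, ∑ y : ZMod N, W x * (starRingEnd ℂ) (W y) * ch ((y - x) * m) := by
      intro m
      have h2 : ((‖hat W m‖ : ℂ)) ^ 2 = hat W m * (starRingEnd ℂ) (hat W m) := by
        rw [Complex.mul_conj, Complex.normSq_eq_norm_sq]; push_cast; rfl
      rw [h2]
      unfold hat
      rw [map_sum, Finset.sum_mul_sum]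
      refine Finset.sum_congr rfl fun x _ => Finset.sum_congr rfl fun y _ => ?_
      rw [map_mul, ← ch_neg, neg_neg]
      have : ch ((y - x) * m) = ch (-(m * x)) * ch (m * y) := by
        rw [← ch_add]; congr 1; ring
      rw [this]; ring
    rw [Finset.sum_congr rfl (fun m _ => h1 m), Finset.sum_comm]
    rw [Finset.mul_sum]
    refine Finset.sum_congr rfl fun x _ => ?_
    rw [Finset.sum_comm]
    have h3 : ∀ y : ZMod N, ∑ m : ZMod N, W x * (starRingEnd ℂ) (W y) * ch ((y - x) * m) =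
        if y = x then W x * (starRingEnd ℂ) (W x) * N else 0 := by
      intro y
      rw [← Finset.mul_sum, sum_ch]
      by_cases hyx : y = x
      · simp [hyx]
      · have : y - x ≠ 0 := sub_ne_zero.2 hyx
        simp [hyx, this]
    rw [Finset.sum_congr rfl (fun y _ => h3 y), Finset.sum_ite_eq' Finset.univ x]
    simp only [Finset.mem_univ, if_true]
    rw [Complex.mul_conj, Complex.normSq_eq_norm_sq]; push_cast; ring
  exact_mod_cast h

lemma hat_shift {N : ℕ} [NeZero N] (W : ZMod N → ℂ) (m : ZMod N) :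
    hat (fun x => W (x + 1) - W x) m = (ch m - 1) * hat W m := by
  unfold hat
  have h1 : ∑ x : ZMod N, W (x + 1) * ch (-(m * x)) = ch m * ∑ x : ZMod N, W x * ch (-(m * x)) := by
    rw [← Equiv.sum_comp (Equiv.subRight (1 : ZMod N)), Finset.mul_sum]
    refine Finset.sum_congr rfl fun x _ => ?_
    simp only [Equiv.subRight_apply, sub_add_cancel]
    have : ch (-(m * (x - 1))) = ch m * ch (-(m * x)) := by
      rw [← ch_add]; congr 1; ring
    rw [this]; ring
  simp only [sub_mul, Finset.sum_sub_distrib]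
  rw [h1]; ring

/-- the modulus of a quadratic Gauss sum with a linear term -/
lemma gauss {p : ℕ} [Fact p.Prime] (hp : 2 < p) (c b : ZMod p) (hc : c ≠ 0) :
    ‖∑ x : ZMod p, ch (c * x ^ 2 + b * x)‖ ^ 2 = p := by
  have h2 : ((‖∑ x : ZMod p, ch (c * x ^ 2 + b * x)‖ ^ 2 : ℝ) : ℂ) = (p : ℂ) := by
    have h3 : ((‖∑ x : ZMod p, ch (c * x ^ 2 + b * x)‖ ^ 2 : ℝ) : ℂ) =
        (∑ x : ZMod p, ch (c * x ^ 2 + b * x)) *
          (starRingEnd ℂ) (∑ x : ZMod p, ch (c * x ^ 2 + b * x)) := by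
      rw [Complex.mul_conj, Complex.normSq_eq_norm_sq]
    rw [h3, map_sum, Finset.sum_mul_sum, Finset.sum_comm]
    have h4 : ∀ y : ZMod p, ∑ x : ZMod p, ch (c * x ^ 2 + b * x) *
        (starRingEnd ℂ) (ch (c * y ^ 2 + b * y)) =
        ∑ h : ZMod p, ch (c * h ^ 2 + b * h) * ch (2 * c * h * y) := by
      intro y
      rw [← Equiv.sum_comp (Equiv.addRight y)]
      refine Finset.sum_congr rfl fun h _ => ?_
      simp only [Equiv.coe_addRight]
      rw [← ch_neg, ← ch_add, ← ch_add]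
      congr 1; ring
    rw [Finset.sum_congr rfl (fun y _ => h4 y), Finset.sum_comm]
    have h5 : ∀ h : ZMod p, ∑ y : ZMod p, ch (c * h ^ 2 + b * h) * ch (2 * c * h * y) =
        if h = 0 then (p : ℂ) else 0 := by
      intro h
      rw [← Finset.mul_sum, sum_ch]
      have h2p : (2 : ZMod p) ≠ 0 := by
        intro h2
        have : ((2 : ℕ) : ZMod p) = 0 := by exact_mod_cast h2
        rw [ZMod.natCast_eq_zero_iff] at this
        exact absurd (Nat.le_of_dvd (by norm_num) this) (by omega)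
      by_cases hh : h = 0
      · subst hh; simp [ch_zero]
      · have : 2 * c * h ≠ 0 := mul_ne_zero (mul_ne_zero h2p hc) hh
        simp [hh, this]
    rw [Finset.sum_congr rfl (fun h _ => h5 h), Finset.sum_ite_eq' Finset.univ (0 : ZMod p)]
    simp
  exact_mod_cast h2

/-- completion of a weighted quadratic exponential sum -/
lemma completion {p : ℕ} [Fact p.Prime] (hp : 2 < p) (c b : ZMod p) (hc : c ≠ 0)
    (W : ZMod p → ℂ) :
    ‖∑ x : ZMod p, W x * ch (c * x ^ 2 + b * x)‖ * Real.sqrt p ≤ ∑ m : ZMod p, ‖hat W m‖ := by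
  have hp0 : (0 : ℝ) < p := by positivity
  have hinv : ∀ x : ZMod p, (p : ℂ) * W x = ∑ m : ZMod p, hat W m * ch (m * x) := by
    intro x
    unfold hat
    have h1 : ∀ m : ZMod p, (∑ y : ZMod p, W y * ch (-(m * y))) * ch (m * x) =
        ∑ y : ZMod p, W y * ch ((x - y) * m) := by
      intro m
      rw [Finset.sum_mul]
      refine Finset.sum_congr rfl fun y _ => ?_
      rw [mul_assoc, ← ch_add]
      congr 2; ring
    rw [Finset.sum_congr rfl (fun m _ => h1 m), Finset.sum_comm]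
    have h2 : ∀ y : ZMod p, ∑ m : ZMod p, W y * ch ((x - y) * m) =
        if y = x then W x * p else 0 := by
      intro y
      rw [← Finset.mul_sum, sum_ch]
      by_cases hyx : y = x
      · simp [hyx]
      · have : x - y ≠ 0 := sub_ne_zero.2 (Ne.symm hyx)
        simp [hyx, this]
    rw [Finset.sum_congr rfl (fun y _ => h2 y), Finset.sum_ite_eq' Finset.univ x]
    simp [mul_comm]
  have h1 : (p : ℂ) * ∑ x : ZMod p, W x * ch (c * x ^ 2 + b * x) =
      ∑ m : ZMod p, hat W m * ∑ x : ZMod p, ch (c * x ^ 2 + (b + m) * x) := by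
    rw [Finset.mul_sum]
    have h2 : ∀ x : ZMod p, (p : ℂ) * (W x * ch (c * x ^ 2 + b * x)) =
        ∑ m : ZMod p, hat W m * ch (c * x ^ 2 + (b + m) * x) := by
      intro x
      rw [← mul_assoc, hinv x, Finset.sum_mul]
      refine Finset.sum_congr rfl fun m _ => ?_
      rw [mul_assoc, ← ch_add]
      congr 2; ring
    rw [Finset.sum_congr rfl (fun x _ => h2 x), Finset.sum_comm]
    exact Finset.sum_congr rfl fun m _ => (Finset.mul_sum _ _ _).symm
  have h3 : (p : ℝ) * ‖∑ x : ZMod p, W x * ch (c * x ^ 2 + b * x)‖ ≤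
      (∑ m : ZMod p, ‖hat W m‖) * Real.sqrt p := by
    have h4 : (p : ℝ) * ‖∑ x : ZMod p, W x * ch (c * x ^ 2 + b * x)‖ =
        ‖(p : ℂ) * ∑ x : ZMod p, W x * ch (c * x ^ 2 + b * x)‖ := by
      rw [norm_mul]; simp
    rw [h4, h1, Finset.sum_mul]
    refine (norm_sum_le _ _).trans (Finset.sum_le_sum fun m _ => ?_)
    rw [norm_mul]
    refine mul_le_mul_of_nonneg_left ?_ (norm_nonneg _)
    have h5 := gauss hp c (b + m) hc
    rw [← h5]
    rw [Real.sqrt_sq (norm_nonneg _)]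
  have hs : 0 < Real.sqrt p := Real.sqrt_pos.2 hp0
  have hss : Real.sqrt p * Real.sqrt p = p := Real.mul_self_sqrt hp0.le
  have h6 : (‖∑ x : ZMod p, W x * ch (c * x ^ 2 + b * x)‖ * Real.sqrt p) * Real.sqrt p ≤
      (∑ m : ZMod p, ‖hat W m‖) * Real.sqrt p := by
    calc _ = (p : ℝ) * ‖∑ x : ZMod p, W x * ch (c * x ^ 2 + b * x)‖ := by
          rw [mul_assoc, hss]; ring
      _ ≤ _ := h3
  exact le_of_mul_le_mul_right h6 hs

end Pool.Agent.X25.SIC
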