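import Pool.Agent.X25.SIC.Fourier

/-!
# The `ℓ¹` norm of the Fourier transform of a Lipschitz function on `ZMod p`
-/

set_option autoImplicit false

open Finset

namespace Pool.Agent.X25.SIC

lemma sum_Icc_int (n : ℕ) :
    ∑ k ∈ Icc (-(n : ℤ)) (n : ℤ), (1 : ℝ) / (1 + (k : ℝ) ^ 2) ≤ 4 - 6 / ((n : ℝ) + 2) := by
  induction n with
  | zero => norm_num
  | succ n ih =>
    have h1 : Icc (-((n + 1 : ℕ) : ℤ)) ((n + 1 : ℕ) : ℤ) =
        insert (-((n + 1 : ℕ) : ℤ)) (insert ((n + 1 : ℕ) : ℤ) (Icc (-(n : ℤ)) n)) := by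
      ext k
      simp only [mem_Icc, mem_insert]
      push_cast
      omega
    rw [h1, sum_insert, sum_insert]
    · have h2 : (1 : ℝ) / (1 + ((-((n + 1 : ℕ) : ℤ) : ℤ) : ℝ) ^ 2) = 1 / (1 + ((n : ℝ) + 1) ^ 2) := by
        push_cast; ring
      have h3 : (1 : ℝ) / (1 + ((((n + 1 : ℕ) : ℤ) : ℤ) : ℝ) ^ 2) = 1 / (1 + ((n : ℝ) + 1) ^ 2) := by
        push_cast; ring
      rw [h2, h3]
      have h4 : 2 * (1 / (1 + ((n : ℝ) + 1) ^ 2)) ≤ 6 / (n + 2) - 6 / (n + 3) := by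
        have hn : (0 : ℝ) ≤ n := Nat.cast_nonneg n
        rw [div_sub_div _ _ (by positivity) (by positivity), mul_one_div,
          div_le_div_iff₀ (by positivity) (by positivity)]
        nlinarith
      have h5 : (((n + 1 : ℕ) : ℝ) + 2) = n + 3 := by push_cast; ring
      rw [h5]
      linarith
    · simp only [mem_Icc, not_and]; omega
    · simp only [mem_insert, mem_Icc, not_or, not_and]
      push_cast
      constructor
      · omega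
      · intro h; omega

lemma norm_ch_sub_one {N : ℕ} [NeZero N] (m : ZMod N) :
    4 * |((m.valMinAbs : ℤ) : ℝ)| / N ≤ ‖ch m - 1‖ := by
  have hN : (0 : ℝ) < N := by exact_mod_cast Nat.pos_of_ne_zero (NeZero.ne N)
  set v : ℤ := m.valMinAbs with hv
  have h1 : ch m = Complex.exp (((2 * Real.pi * v / N : ℝ) : ℂ) * Complex.I) := by
    have : m = ((v : ℤ) : ZMod N) := (ZMod.coe_valMinAbs m).symm
    unfold ch
    rw [this, ZMod.stdAddChar_coe]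
    congr 1
    push_cast; ring
  have h2 : ‖ch m - 1‖ = 2 * |Real.sin (Real.pi * v / N)| := by
    rw [h1, mul_comm, Complex.norm_exp_I_mul_ofReal_sub_one]
    rw [Real.norm_eq_abs, abs_mul, abs_of_pos (by norm_num : (0:ℝ) < 2)]
    congr 3
    ring
  have h3 : |(v : ℝ)| ≤ N / 2 := by
    have h := ZMod.natAbs_valMinAbs_le m
    have h4 : ((v.natAbs : ℕ) : ℝ) = |(v : ℝ)| := by
      rw [Nat.cast_natAbs]; push_cast; rfl
    rw [← h4]
    have h5 : v.natAbs * 2 ≤ N := by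
      have := Nat.div_mul_le_self N 2
      calc v.natAbs * 2 ≤ N / 2 * 2 := Nat.mul_le_mul_right 2 h
        _ ≤ N := this
    have h6 : ((v.natAbs * 2 : ℕ) : ℝ) ≤ N := by exact_mod_cast h5
    push_cast at h6 ⊢
    linarith
  have h5 : |Real.pi * v / N| ≤ Real.pi / 2 := by
    rw [abs_div, abs_mul, abs_of_pos Real.pi_pos, abs_of_pos hN, div_le_iff₀ hN]
    nlinarith [Real.pi_pos]
  have h6 := Real.mul_abs_le_abs_sin h5
  rw [h2]
  have h7 : 2 / Real.pi * |Real.pi * v / N| = 2 * |(v : ℝ)| / N := by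
    rw [abs_div, abs_mul, abs_of_pos Real.pi_pos, abs_of_pos hN]
    field_simp
  rw [h7] at h6
  calc 4 * |(v : ℝ)| / N = 2 * (2 * |(v : ℝ)| / N) := by ring
    _ ≤ _ := by linarith

lemma sum_inv {N : ℕ} [NeZero N] (D : ℝ) (hD : 0 < D) (hN : (N : ℝ) ≤ 4 * D) :
    ∑ m : ZMod N, 1 / (1 / D ^ 2 + ‖ch m - 1‖ ^ 2) ≤ 4 * D ^ 2 := by
  have hN0 : (0 : ℝ) < N := by exact_mod_cast Nat.pos_of_ne_zero (NeZero.ne N)
  have h1 : ∀ m : ZMod N, 1 / (1 / D ^ 2 + ‖ch m - 1‖ ^ 2) ≤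
      D ^ 2 * (1 / (1 + ((m.valMinAbs : ℤ) : ℝ) ^ 2)) := by
    intro m
    have h2 := norm_ch_sub_one m
    set v : ℝ := ((m.valMinAbs : ℤ) : ℝ) with hv
    have h3 : |v| / D ≤ ‖ch m - 1‖ := by
      refine le_trans ?_ h2
      rw [div_le_div_iff₀ hD hN0]
      nlinarith [abs_nonneg v]
    have h4 : v ^ 2 / D ^ 2 ≤ ‖ch m - 1‖ ^ 2 := by
      have := pow_le_pow_left₀ (by positivity) h3 2
      rwa [div_pow, sq_abs] at this
    rw [mul_one_div, div_le_div_iff₀ (by positivity) (by positivity)]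
    have h5 : D ^ 2 * (1 / D ^ 2 + ‖ch m - 1‖ ^ 2) ≥ D ^ 2 * (1 / D ^ 2 + v ^ 2 / D ^ 2) :=
      mul_le_mul_of_nonneg_left (by linarith) (by positivity)
    have h6 : D ^ 2 * (1 / D ^ 2 + v ^ 2 / D ^ 2) = 1 + v ^ 2 := by
      field_simp
    linarith
  have h2 : ∑ m : ZMod N, 1 / (1 + ((m.valMinAbs : ℤ) : ℝ) ^ 2) ≤ 4 := by
    have hinj : Set.InjOn (fun m : ZMod N => m.valMinAbs) (Finset.univ : Finset (ZMod N)) :=
      fun a _ b _ h => ZMod.injective_valMinAbs h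
    have h3 : ∑ m : ZMod N, 1 / (1 + ((m.valMinAbs : ℤ) : ℝ) ^ 2) =
        ∑ k ∈ (Finset.univ : Finset (ZMod N)).image (fun m : ZMod N => (m.valMinAbs : ℤ)),
          (1 : ℝ) / (1 + ((k : ℤ) : ℝ) ^ 2) := by
      rw [Finset.sum_image hinj]
    rw [h3]
    refine le_trans (Finset.sum_le_sum_of_subset_of_nonneg (t := Icc (-(N : ℤ)) (N : ℤ)) ?_ ?_) ?_
    · intro k hk
      rw [Finset.mem_image] at hk
      obtain ⟨m, -, rfl⟩ := hk
      have h := ZMod.natAbs_valMinAbs_le m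
      have := Nat.div_le_self N 2
      rw [mem_Icc]
      constructor <;> omega
    · intro k _ _; positivity
    · have := sum_Icc_int N
      have h4 : (0 : ℝ) ≤ 6 / (N + 2) := by positivity
      linarith
  calc ∑ m : ZMod N, 1 / (1 / D ^ 2 + ‖ch m - 1‖ ^ 2)
      ≤ ∑ m : ZMod N, D ^ 2 * (1 / (1 + ((m.valMinAbs : ℤ) : ℝ) ^ 2)) :=
        Finset.sum_le_sum fun m _ => h1 m
    _ = D ^ 2 * ∑ m : ZMod N, 1 / (1 + ((m.valMinAbs : ℤ) : ℝ) ^ 2) := by rw [Finset.mul_sum]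
    _ ≤ D ^ 2 * 4 := mul_le_mul_of_nonneg_left h2 (by positivity)
    _ = 4 * D ^ 2 := by ring

lemma l1_bound {N : ℕ} [NeZero N] (D : ℝ) (hD : 0 < D) (hN : (N : ℝ) ≤ 4 * D) (W : ZMod N → ℂ) :
    (∑ m : ZMod N, ‖hat W m‖) ^ 2 ≤
      4 * N * (∑ x : ZMod N, ‖W x‖ ^ 2 + D ^ 2 * ∑ x : ZMod N, ‖W (x + 1) - W x‖ ^ 2) := by
  have hr : ∀ m : ZMod N, 0 < 1 / D ^ 2 + ‖ch m - 1‖ ^ 2 := fun m => by positivity
  have h1 : (∑ m : ZMod N, ‖hat W m‖) ^ 2 ≤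
      (∑ m : ZMod N, 1 / (1 / D ^ 2 + ‖ch m - 1‖ ^ 2)) *
        ∑ m : ZMod N, (1 / D ^ 2 + ‖ch m - 1‖ ^ 2) * ‖hat W m‖ ^ 2 := by
    have := Finset.sum_mul_sq_le_sq_mul_sq (Finset.univ : Finset (ZMod N))
      (fun m => Real.sqrt (1 / (1 / D ^ 2 + ‖ch m - 1‖ ^ 2)))
      (fun m => Real.sqrt (1 / D ^ 2 + ‖ch m - 1‖ ^ 2) * ‖hat W m‖)
    have h2 : ∀ m : ZMod N, Real.sqrt (1 / (1 / D ^ 2 + ‖ch m - 1‖ ^ 2)) *
        (Real.sqrt (1 / D ^ 2 + ‖ch m - 1‖ ^ 2) * ‖hat W m‖) = ‖hat W m‖ := by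
      intro m
      rw [← mul_assoc, ← Real.sqrt_mul (by positivity), one_div_mul_cancel (hr m).ne', Real.sqrt_one,
        one_mul]
    have h3 : ∀ m : ZMod N, Real.sqrt (1 / (1 / D ^ 2 + ‖ch m - 1‖ ^ 2)) ^ 2 =
        1 / (1 / D ^ 2 + ‖ch m - 1‖ ^ 2) := fun m => Real.sq_sqrt (by positivity)
    have h4 : ∀ m : ZMod N, (Real.sqrt (1 / D ^ 2 + ‖ch m - 1‖ ^ 2) * ‖hat W m‖) ^ 2 =
        (1 / D ^ 2 + ‖ch m - 1‖ ^ 2) * ‖hat W m‖ ^ 2 := fun m => by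
      rw [mul_pow, Real.sq_sqrt (hr m).le]
    rw [Finset.sum_congr rfl (fun m _ => h2 m), Finset.sum_congr rfl (fun m _ => h3 m),
      Finset.sum_congr rfl (fun m _ => h4 m)] at this
    exact this
  have h5 : ∑ m : ZMod N, (1 / D ^ 2 + ‖ch m - 1‖ ^ 2) * ‖hat W m‖ ^ 2 =
      N * (1 / D ^ 2 * ∑ x : ZMod N, ‖W x‖ ^ 2 + ∑ x : ZMod N, ‖W (x + 1) - W x‖ ^ 2) := by
    have h6 : ∀ m : ZMod N, (1 / D ^ 2 + ‖ch m - 1‖ ^ 2) * ‖hat W m‖ ^ 2 =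
        1 / D ^ 2 * ‖hat W m‖ ^ 2 + ‖hat (fun x => W (x + 1) - W x) m‖ ^ 2 := by
      intro m
      rw [hat_shift, norm_mul, mul_pow]; ring
    rw [Finset.sum_congr rfl (fun m _ => h6 m), Finset.sum_add_distrib, ← Finset.mul_sum,
      parseval, parseval]
    ring
  rw [h5] at h1
  refine h1.trans ?_
  have h7 := sum_inv (N := N) D hD hN
  calc _ ≤ (4 * D ^ 2) *
        (N * (1 / D ^ 2 * ∑ x : ZMod N, ‖W x‖ ^ 2 + ∑ x : ZMod N, ‖W (x + 1) - W x‖ ^ 2)) := by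
        refine mul_le_mul_of_nonneg_right h7 ?_
        positivity
    _ = _ := by field_simp

end Pool.Agent.X25.SIC
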