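import Pool.Agent.X25.SIC.Fid

/-!
# Approximate Weyl-Heisenberg fiducials in every dimension
-/

set_option autoImplicit false

open Finset

namespace Pool.Agent.X25.SIC

variable {d : ℕ}

/-- `|⟨v|D_{a,b}|v⟩|` -/
noncomputable def ov [NeZero d] (v : ZMod d → ℂ) (a b : ZMod d) : ℝ := ‖braket v (disp a b v)‖

lemma disp_zero (v : ZMod d → ℂ) : disp 0 0 v = v := by
  unfold disp; simp

lemma disp_smul (a b : ZMod d) (c : ℂ) (v : ZMod d → ℂ) :
    disp a b (fun j => c * v j) = fun j => c * disp a b v j := by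
  funext j
  unfold disp
  rw [shiftX_iter, shiftX_iter, clockZ_iter, clockZ_iter]
  ring

lemma braket_smul [NeZero d] (a b : ZMod d) (c : ℝ) (v : ZMod d → ℂ) :
    braket (fun j => (c : ℂ) * v j) (disp a b (fun j => (c : ℂ) * v j)) =
      ((c ^ 2 : ℝ) : ℂ) * braket v (disp a b v) := by
  rw [disp_smul]
  unfold braket
  rw [Finset.mul_sum]
  refine Finset.sum_congr rfl fun j _ => ?_
  rw [map_mul, Complex.conj_ofReal]
  push_cast; ring

lemma braket_self [NeZero d] (v : ZMod d → ℂ) :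
    braket v (disp 0 0 v) = ((∑ j : ZMod d, ‖v j‖ ^ 2 : ℝ) : ℂ) := by
  rw [disp_zero]
  unfold braket
  push_cast
  refine Finset.sum_congr rfl fun j _ => ?_
  rw [mul_comm, Complex.mul_conj, Complex.normSq_eq_norm_sq]; push_cast; rfl

/-- Moyal's identity -/
lemma moyal [NeZero d] (v : ZMod d → ℂ) (hv : ∑ j : ZMod d, ‖v j‖ ^ 2 = 1) :
    ∑ a : ZMod d, ∑ b : ZMod d, ov v a b ^ 2 = d := by
  have hd0 : 0 < d := Nat.pos_of_ne_zero (NeZero.ne d)
  have hd' : (d : ℝ) ≠ 0 := by exact_mod_cast hd0.ne'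
  have h1 : ∀ a : ZMod d, ∑ b : ZMod d, ov v a b ^ 2 =
      d * ∑ k : ZMod d, ‖v (k + a)‖ ^ 2 * ‖v k‖ ^ 2 := by
    intro a
    have h2 : ∀ b : ZMod d, ov v a b = ‖hat (fun k => (starRingEnd ℂ) (v (k + a)) * v k) (-b)‖ := by
      intro b
      unfold ov
      rw [braket_disp]
      unfold hat
      congr 1
      refine Finset.sum_congr rfl fun k _ => ?_
      have e1 : ee ((b.val : ℝ) * k.val / d) = ch (-(-b * k)) := by
        have : (b.val : ℝ) * k.val / d = ((((b.val : ℤ) * (k.val : ℤ) : ℤ)) : ℝ) / d := by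
          push_cast; ring
        rw [this, ee_div]
        congr 1
        push_cast
        rw [ZMod.natCast_zmod_val, ZMod.natCast_zmod_val]; ring
      rw [e1]; ring
    rw [Finset.sum_congr rfl (fun b _ => by rw [h2 b])]
    have h5 := Equiv.sum_comp (Equiv.neg (ZMod d))
      (fun b => ‖hat (fun k => (starRingEnd ℂ) (v (k + a)) * v k) b‖ ^ 2)
    simp only [Equiv.neg_apply] at h5
    rw [h5, parseval]
    congr 1
    refine Finset.sum_congr rfl fun k _ => ?_
    rw [norm_mul, mul_pow, RCLike.norm_conj]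
  rw [Finset.sum_congr rfl (fun a _ => h1 a), ← Finset.mul_sum, Finset.sum_comm]
  have h3 : ∀ k : ZMod d, ∑ a : ZMod d, ‖v (k + a)‖ ^ 2 * ‖v k‖ ^ 2 = ‖v k‖ ^ 2 := by
    intro k
    have h5 := Equiv.sum_comp (Equiv.addLeft k) (fun a => ‖v a‖ ^ 2)
    simp only [Equiv.coe_addLeft] at h5
    rw [← Finset.sum_mul, h5, hv, one_mul]
  rw [Finset.sum_congr rfl (fun k _ => h3 k), hv, mul_one]

theorem exists_fiducial (d : ℕ) [NeZero d] (hd : 2 ≤ d) :
    ∃ v : ZMod d → ℂ, ∑ j : ZMod d, ‖v j‖ ^ 2 = 1 ∧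
      ∀ a b : ZMod d, ¬ (a = 0 ∧ b = 0) → ov v a b ≤ 112 / Real.sqrt d := by
  have hd0 : 0 < d := by omega
  have hd' : (0 : ℝ) < d := by exact_mod_cast hd0
  have hsq : 0 < Real.sqrt d := Real.sqrt_pos.2 hd'
  have hss : Real.sqrt d * Real.sqrt d = d := Real.mul_self_sqrt hd'.le
  rcases lt_or_ge (Real.sqrt d) 56 with h | h
  · refine ⟨fun j => if j = 0 then 1 else 0, ?_, fun a b _ => ?_⟩
    · rw [Finset.sum_eq_single (0 : ZMod d)]
      · simp
      · intro j _ hj; simp [hj]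
      · intro h; exact absurd (Finset.mem_univ _) h
    · have h1 : ov (fun j : ZMod d => if j = 0 then (1 : ℂ) else 0) a b ≤ 1 := by
        unfold ov
        rw [braket_disp, Finset.sum_eq_single (0 : ZMod d)]
        · rw [norm_mul, norm_mul, norm_ee, RCLike.norm_conj]
          by_cases h2 : a = 0
          · simp [h2]
          · simp [h2]
        · intro j _ hj; simp [hj]
        · intro h; exact absurd (Finset.mem_univ _) h
      refine h1.trans ?_
      rw [le_div_iff₀ hsq]; linarith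
  · obtain ⟨p, hpp, hp1, hp2⟩ := Nat.exists_prime_lt_and_le_two_mul (2 * d) (by omega)
    have hp4 : p ≤ 4 * d := by omega
    obtain ⟨-, h1⟩ := overlaps (d := d) hpp hd hp1 hp4 0 0
    have h1 := h1 ⟨rfl, rfl⟩
    rw [braket_self] at h1
    set ν : ℝ := ∑ j : ZMod d, ‖psi d p j‖ ^ 2 with hν
    have h2 : |ν - d| ≤ 28 * Real.sqrt d := by
      have : ((ν : ℝ) : ℂ) - (d : ℂ) = ((ν - d : ℝ) : ℂ) := by push_cast; rfl
      rw [this, Complex.norm_real, Real.norm_eq_abs] at h1
      exact h1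
    have h3 : (d : ℝ) / 2 ≤ ν := by
      have h4 := (abs_le.1 h2).1
      nlinarith
    have hν0 : 0 < ν := by linarith
    refine ⟨fun j => ((1 / Real.sqrt ν : ℝ) : ℂ) * psi d p j, ?_, fun a b hab => ?_⟩
    · have h5 : ∀ j : ZMod d, ‖((1 / Real.sqrt ν : ℝ) : ℂ) * psi d p j‖ ^ 2 =
          1 / ν * ‖psi d p j‖ ^ 2 := by
        intro j
        rw [norm_mul, mul_pow, Complex.norm_real, Real.norm_eq_abs, sq_abs, div_pow,
          Real.sq_sqrt hν0.le, one_pow]
      rw [Finset.sum_congr rfl (fun j _ => h5 j), ← Finset.mul_sum, ← hν]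
      field_simp
    · unfold ov
      rw [braket_smul, norm_mul, Complex.norm_real, Real.norm_eq_abs]
      have h6 := (overlaps (d := d) hpp hd hp1 hp4 a b).1 hab
      have h7 : |(1 / Real.sqrt ν) ^ 2| = 1 / ν := by
        rw [div_pow, Real.sq_sqrt hν0.le, one_pow, abs_of_pos (by positivity)]
      rw [h7]
      calc 1 / ν * ‖braket (psi d p) (disp a b (psi d p))‖ ≤ 1 / (d / 2) * (56 * Real.sqrt d) := by
            refine mul_le_mul ?_ h6 (norm_nonneg _) (by positivity)
            exact one_div_le_one_div_of_le (by positivity) h3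
        _ = 112 / Real.sqrt d := by
            rw [eq_div_iff hsq.ne']
            field_simp
            nlinarith
end Pool.Agent.X25.SIC
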