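import Pool.Agent.X25.SIC.L1

/-!
# Windowed cubic phases: correlations of a fixed shift
-/

set_option autoImplicit false

open Finset

namespace Pool.Agent.X25.SIC

/-- `e(t) = exp (2 π i t)` -/
noncomputable def ee (t : ℝ) : ℂ := Complex.exp (((2 * Real.pi * t : ℝ) : ℂ) * Complex.I)

lemma ee_add (s t : ℝ) : ee (s + t) = ee s * ee t := by
  unfold ee
  rw [← Complex.exp_add]; congr 1; push_cast; ring

lemma norm_ee (t : ℝ) : ‖ee t‖ = 1 := Complex.norm_exp_ofReal_mul_I _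

lemma ee_zero : ee 0 = 1 := by unfold ee; simp

lemma ee_conj (t : ℝ) : (starRingEnd ℂ) (ee t) = ee (-t) := by
  unfold ee
  rw [← Complex.exp_conj, map_mul, Complex.conj_ofReal, Complex.conj_I]
  congr 1
  push_cast; ring

lemma norm_ee_sub_one (t : ℝ) : ‖ee t - 1‖ ≤ 2 * Real.pi * |t| := by
  unfold ee
  rw [mul_comm]
  have := Complex.norm_exp_I_mul_ofReal_sub_one (x := 2 * Real.pi * t)
  rw [this, Real.norm_eq_abs, abs_mul, abs_of_pos (by norm_num : (0:ℝ) < 2)]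
  have h : |Real.sin (2 * Real.pi * t / 2)| ≤ |2 * Real.pi * t / 2| := Real.abs_sin_le_abs
  have h2 : |2 * Real.pi * t / 2| = Real.pi * |t| := by
    rw [show 2 * Real.pi * t / 2 = Real.pi * t by ring, abs_mul, abs_of_pos Real.pi_pos]
  rw [h2] at h
  linarith

lemma ee_div {N : ℕ} [NeZero N] (k : ℤ) : ee ((k : ℝ) / N) = ch ((k : ℤ) : ZMod N) := by
  unfold ch ee
  rw [ZMod.stdAddChar_coe]
  congr 1
  push_cast; ring

/-- the window -/
noncomputable def w (d : ℕ) (n : ℤ) : ℝ :=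
  if 0 ≤ n ∧ n ≤ 2 * d then Real.sin (Real.pi * n / (2 * d)) else 0

variable {d : ℕ}

lemma w_abs (n : ℤ) : |w d n| ≤ 1 := by
  unfold w
  split_ifs
  · exact Real.abs_sin_le_one _
  · simp

lemma w_le (hd : 0 < d) (n : ℤ) (hn : n ≤ 0) : w d n = 0 := by
  unfold w
  split_ifs with h
  · have : n = 0 := le_antisymm hn h.1
    subst this; simp
  · rfl

lemma w_ge (hd : 0 < d) (n : ℤ) (hn : 2 * (d : ℤ) ≤ n) : w d n = 0 := by
  unfold w
  split_ifs with h
  · have h1 : n = 2 * (d : ℤ) := le_antisymm h.2 hn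
    have hd' : (d : ℝ) ≠ 0 := by exact_mod_cast hd.ne'
    have : Real.pi * (n : ℝ) / (2 * d) = Real.pi := by
      rw [h1]; push_cast; field_simp
    rw [this, Real.sin_pi]
  · rfl

lemma w_lip (hd : 0 < d) (n : ℤ) : |w d (n + 1) - w d n| ≤ Real.pi / (2 * d) := by
  have hd' : (0 : ℝ) < d := by exact_mod_cast hd
  rcases lt_or_ge n 0 with h | h
  · rw [w_le hd n h.le, w_le hd (n + 1) (by omega)]
    simp only [sub_self, abs_zero]
    positivity
  · rcases lt_or_ge n (2 * (d : ℤ)) with h2 | h2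
    · have e1 : w d n = Real.sin (Real.pi * n / (2 * d)) := by
        unfold w; rw [if_pos ⟨h, h2.le⟩]
      have e2 : w d (n + 1) = Real.sin (Real.pi * ((n + 1 : ℤ) : ℝ) / (2 * d)) := by
        unfold w; rw [if_pos ⟨by omega, by omega⟩]
      rw [e1, e2]
      have h3 := Real.abs_sin_sub_sin_le (Real.pi * ((n + 1 : ℤ) : ℝ) / (2 * d)) (Real.pi * n / (2 * d))
      refine h3.trans (le_of_eq ?_)
      have : Real.pi * ((n + 1 : ℤ) : ℝ) / (2 * d) - Real.pi * n / (2 * d) = Real.pi / (2 * d) := by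
        push_cast; ring
      rw [this, abs_of_pos (by positivity)]
    · rw [w_ge hd n h2, w_ge hd (n + 1) (by omega)]
      simp only [sub_self, abs_zero]
      positivity

lemma w_sq (hd : 0 < d) (n : ℤ) (h0 : 0 ≤ n) (h1 : n ≤ d) :
    w d n ^ 2 + w d (n + d) ^ 2 = 1 := by
  have hd' : (d : ℝ) ≠ 0 := by exact_mod_cast hd.ne'
  have e1 : w d n = Real.sin (Real.pi * n / (2 * d)) := by
    unfold w; rw [if_pos ⟨h0, by omega⟩]
  have e2 : w d (n + d) = Real.cos (Real.pi * n / (2 * d)) := by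
    unfold w; rw [if_pos ⟨by omega, by omega⟩]
    rw [← Real.sin_add_pi_div_two]
    congr 1
    push_cast
    field_simp
  rw [e1, e2]
  exact Real.sin_sq_add_cos_sq _

/-- the windowed cubic phase -/
noncomputable def g (d p : ℕ) (n : ℤ) : ℂ := (w d n : ℂ) * ee (((n ^ 3 : ℤ) : ℝ) / p)

/-- the correlation of the windowed cubic phase with shift `s` and modulation `b / d` -/
noncomputable def T (d p : ℕ) (s b : ℤ) : ℂ :=
  ∑ n ∈ range (2 * d), g d p n * (starRingEnd ℂ) (g d p (n + s)) * ee ((b : ℝ) * n / d)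

/-- the weight -/
noncomputable def Wt (d : ℕ) (s : ℤ) (γ : ℝ) (n : ℤ) : ℂ :=
  ((w d n * w d (n + s) : ℝ) : ℂ) * ee (γ * n)

lemma Wt_norm (s : ℤ) (γ : ℝ) (n : ℤ) : ‖Wt d s γ n‖ ≤ 1 := by
  unfold Wt
  rw [norm_mul, norm_ee, mul_one, Complex.norm_real, Real.norm_eq_abs, abs_mul]
  exact mul_le_one₀ (w_abs _) (abs_nonneg _) (w_abs _)

lemma Wt_le (hd : 0 < d) (s : ℤ) (γ : ℝ) (n : ℤ) (hn : n ≤ 0) : Wt d s γ n = 0 := by
  unfold Wt; rw [w_le hd n hn]; simp

lemma Wt_ge (hd : 0 < d) (s : ℤ) (γ : ℝ) (n : ℤ) (hn : 2 * (d : ℤ) ≤ n) : Wt d s γ n = 0 := by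
  unfold Wt; rw [w_ge hd n hn]; simp

lemma Wt_lip (hd : 0 < d) (s : ℤ) (γ : ℝ) (hγ : |γ| ≤ 1 / (4 * d)) (n : ℤ) :
    ‖Wt d s γ (n + 1) - Wt d s γ n‖ ≤ 3 * Real.pi / (2 * d) := by
  have hd' : (0 : ℝ) < d := by exact_mod_cast hd
  have h1 : Wt d s γ (n + 1) - Wt d s γ n =
      (((w d (n + 1) - w d n) * w d (n + 1 + s) : ℝ) : ℂ) * ee (γ * ((n + 1 : ℤ) : ℝ)) +
      ((w d n * (w d (n + s + 1) - w d (n + s)) : ℝ) : ℂ) * ee (γ * ((n + 1 : ℤ) : ℝ)) +
      ((w d n * w d (n + s) : ℝ) : ℂ) * (ee (γ * n) * (ee γ - 1)) := by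
    unfold Wt
    have h2 : ee (γ * ((n + 1 : ℤ) : ℝ)) = ee (γ * n) * ee γ := by
      rw [← ee_add]; congr 1; push_cast; ring
    rw [h2, show n + 1 + s = n + s + 1 by ring]
    push_cast; ring
  rw [h1]
  have a1 : ‖(((w d (n + 1) - w d n) * w d (n + 1 + s) : ℝ) : ℂ) * ee (γ * ((n + 1 : ℤ) : ℝ))‖ ≤
      Real.pi / (2 * d) := by
    rw [norm_mul, norm_ee, mul_one, Complex.norm_real, Real.norm_eq_abs, abs_mul]
    calc _ ≤ Real.pi / (2 * d) * 1 :=
          mul_le_mul (w_lip hd n) (w_abs _) (abs_nonneg _) (by positivity)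
      _ = _ := mul_one _
  have a2 : ‖((w d n * (w d (n + s + 1) - w d (n + s)) : ℝ) : ℂ) * ee (γ * ((n + 1 : ℤ) : ℝ))‖ ≤
      Real.pi / (2 * d) := by
    rw [norm_mul, norm_ee, mul_one, Complex.norm_real, Real.norm_eq_abs, abs_mul]
    calc _ ≤ 1 * (Real.pi / (2 * d)) :=
          mul_le_mul (w_abs _) (w_lip hd _) (abs_nonneg _) zero_le_one
      _ = _ := one_mul _
  have a3 : ‖((w d n * w d (n + s) : ℝ) : ℂ) * (ee (γ * n) * (ee γ - 1))‖ ≤ Real.pi / (2 * d) := by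
    rw [norm_mul, norm_mul, norm_ee, one_mul, Complex.norm_real, Real.norm_eq_abs, abs_mul]
    have h3 := norm_ee_sub_one γ
    have h4 : 2 * Real.pi * |γ| ≤ Real.pi / (2 * d) := by
      calc 2 * Real.pi * |γ| ≤ 2 * Real.pi * (1 / (4 * d)) :=
            mul_le_mul_of_nonneg_left hγ (by positivity)
        _ = _ := by field_simp; norm_num
    calc |w d n| * |w d (n + s)| * ‖ee γ - 1‖ ≤ 1 * (Real.pi / (2 * d)) :=
          mul_le_mul (mul_le_one₀ (w_abs _) (abs_nonneg _) (w_abs _)) (h3.trans h4)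
            (norm_nonneg _) zero_le_one
      _ = _ := one_mul _
  calc _ ≤ _ := norm_add₃_le
    _ ≤ Real.pi / (2 * d) + Real.pi / (2 * d) + Real.pi / (2 * d) := by linarith
    _ = _ := by ring

lemma sum_zmod {p : ℕ} [NeZero p] (F : ZMod p → ℂ) :
    ∑ x : ZMod p, F x = ∑ k ∈ range p, F (k : ZMod p) := by
  symm
  refine Finset.sum_bij' (fun (k : ℕ) _ => (k : ZMod p)) (fun (x : ZMod p) _ => x.val)
    (fun _ _ => Finset.mem_univ _) (fun x _ => Finset.mem_range.2 (ZMod.val_lt x))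
    (fun k hk => ZMod.val_cast_of_lt (Finset.mem_range.1 hk)) (fun x _ => ZMod.natCast_zmod_val x)
    (fun _ _ => rfl)

lemma sum_zmodR {p : ℕ} [NeZero p] (F : ZMod p → ℝ) :
    ∑ x : ZMod p, F x = ∑ k ∈ range p, F (k : ZMod p) := by
  symm
  refine Finset.sum_bij' (fun (k : ℕ) _ => (k : ZMod p)) (fun (x : ZMod p) _ => x.val)
    (fun _ _ => Finset.mem_univ _) (fun x _ => Finset.mem_range.2 (ZMod.val_lt x))
    (fun k hk => ZMod.val_cast_of_lt (Finset.mem_range.1 hk)) (fun x _ => ZMod.natCast_zmod_val x)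
    (fun _ _ => rfl)

/-- weighted quadratic exponential sum over the window -/
lemma quad_sum {p : ℕ} [Fact p.Prime] (hd : 0 < d) (hp : 2 * d < p) (hp4 : p ≤ 4 * d)
    (hp2 : 2 < p) (s : ℤ) (γ : ℝ) (hγ : |γ| ≤ 1 / (4 * d)) (c b : ZMod p) (hc : c ≠ 0) :
    ‖∑ n ∈ range (2 * d), Wt d s γ n * ch (c * (n : ZMod p) ^ 2 + b * (n : ZMod p))‖ ≤
      14 * Real.sqrt d := by
  have hd' : (0 : ℝ) < d := by exact_mod_cast hd
  have hp0 : (0 : ℝ) < p := by
    have : 0 < p := by omega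
    exact_mod_cast this
  set W : ZMod p → ℂ := fun x => Wt d s γ (x.val : ℤ) with hW
  have hWk : ∀ k : ℕ, k < p → W (k : ZMod p) = Wt d s γ (k : ℤ) := by
    intro k hk
    simp only [hW]
    rw [ZMod.val_cast_of_lt hk]
  have hWk' : ∀ k : ℕ, k ≤ p → W (k : ZMod p) = Wt d s γ (k : ℤ) := by
    intro k hk
    rcases Nat.lt_or_ge k p with h | h
    · exact hWk k h
    · have hkp : k = p := le_antisymm hk h
      subst hkp
      have h1 : ((k : ℕ) : ZMod k) = ((0 : ℕ) : ZMod k) := by simp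
      rw [h1, hWk 0 (by omega), Wt_le hd s γ _ (by simp), Wt_ge hd s γ _ (by omega)]
  have h1 : ∑ x : ZMod p, W x * ch (c * x ^ 2 + b * x) =
      ∑ n ∈ range (2 * d), Wt d s γ n * ch (c * (n : ZMod p) ^ 2 + b * (n : ZMod p)) := by
    rw [sum_zmod]
    have hsub : range (2 * d) ⊆ range p := Finset.range_subset_range.2 hp.le
    rw [← Finset.sum_subset hsub]
    · refine Finset.sum_congr rfl fun k hk => ?_
      rw [hWk k (lt_trans (Finset.mem_range.1 hk) hp)]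
    · intro k hk hk2
      rw [Finset.mem_range] at hk
      rw [Finset.mem_range, not_lt] at hk2
      rw [hWk k hk, Wt_ge hd s γ _ (by exact_mod_cast hk2), zero_mul]
  have h2 : ∑ x : ZMod p, ‖W x‖ ^ 2 ≤ 2 * d := by
    rw [sum_zmodR]
    have hsub : range (2 * d) ⊆ range p := Finset.range_subset_range.2 hp.le
    rw [← Finset.sum_subset hsub]
    · calc ∑ k ∈ range (2 * d), ‖W (k : ZMod p)‖ ^ 2 ≤ ∑ _k ∈ range (2 * d), (1 : ℝ) := by
            refine Finset.sum_le_sum fun k _ => ?_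
            exact pow_le_one₀ (norm_nonneg _) (Wt_norm s γ _)
        _ = 2 * d := by simp
    · intro k hk hk2
      rw [Finset.mem_range] at hk
      rw [Finset.mem_range, not_lt] at hk2
      rw [hWk k hk, Wt_ge hd s γ _ (by exact_mod_cast hk2)]; simp
  have h3 : ∑ x : ZMod p, ‖W (x + 1) - W x‖ ^ 2 ≤ 2 * d * (3 * Real.pi / (2 * d)) ^ 2 := by
    rw [sum_zmodR]
    have hsub : range (2 * d) ⊆ range p := Finset.range_subset_range.2 hp.le
    have hk1 : ∀ k : ℕ, k < p → W ((k : ZMod p) + 1) = Wt d s γ ((k : ℤ) + 1) := by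
      intro k hk
      have := hWk' (k + 1) hk
      push_cast at this
      exact this
    rw [← Finset.sum_subset hsub]
    · calc ∑ k ∈ range (2 * d), ‖W ((k : ZMod p) + 1) - W (k : ZMod p)‖ ^ 2
          ≤ ∑ _k ∈ range (2 * d), (3 * Real.pi / (2 * d)) ^ 2 := by
            refine Finset.sum_le_sum fun k hk => ?_
            have hkp : k < p := lt_trans (Finset.mem_range.1 hk) hp
            rw [hk1 k hkp, hWk k hkp]
            exact pow_le_pow_left₀ (norm_nonneg _) (Wt_lip hd s γ hγ _) 2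
        _ = _ := by simp
    · intro k hk hk2
      rw [Finset.mem_range] at hk
      rw [Finset.mem_range, not_lt] at hk2
      have hk2' : 2 * (d : ℤ) ≤ (k : ℤ) := by exact_mod_cast hk2
      rw [hk1 k hk, hWk k hk, Wt_ge hd s γ _ hk2', Wt_ge hd s γ _ (by omega)]; simp
  have h4 := completion hp2 c b hc W
  have h5 := l1_bound (N := p) (d : ℝ) hd' (by exact_mod_cast hp4) W
  rw [h1] at h4
  set S := ‖∑ n ∈ range (2 * d), Wt d s γ n * ch (c * (n : ZMod p) ^ 2 + b * (n : ZMod p))‖ with hS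
  have hS0 : 0 ≤ S := norm_nonneg _
  have h6 : (S * Real.sqrt p) ^ 2 ≤ 4 * p * (2 * d + d ^ 2 * (2 * d * (3 * Real.pi / (2 * d)) ^ 2)) := by
    calc (S * Real.sqrt p) ^ 2 ≤ (∑ m : ZMod p, ‖hat W m‖) ^ 2 :=
          pow_le_pow_left₀ (by positivity) h4 2
      _ ≤ _ := h5
      _ ≤ _ := by
          refine mul_le_mul_of_nonneg_left ?_ (by positivity)
          have := mul_le_mul_of_nonneg_left h3 (sq_nonneg (d : ℝ))
          linarith
  have h7 : (S * Real.sqrt p) ^ 2 = S ^ 2 * p := by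
    rw [mul_pow, Real.sq_sqrt hp0.le]
  have h8 : 4 * (p : ℝ) * (2 * d + d ^ 2 * (2 * d * (3 * Real.pi / (2 * d)) ^ 2)) =
      (d * (8 + 18 * Real.pi ^ 2)) * p := by
    field_simp; ring
  rw [h7, h8] at h6
  have h9 : S ^ 2 ≤ d * (8 + 18 * Real.pi ^ 2) := le_of_mul_le_mul_right h6 hp0
  have h10 : Real.pi ^ 2 ≤ 10 := by nlinarith [Real.pi_lt_d2, Real.pi_pos]
  have h11 : S ^ 2 ≤ (14 * Real.sqrt d) ^ 2 := by
    rw [mul_pow, Real.sq_sqrt hd'.le]
    nlinarith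
  exact le_of_sq_le_sq h11 (by positivity)

/-- the correlations of the windowed cubic phase with a nonzero shift -/
lemma T_bound {p : ℕ} (hpp : p.Prime) (hd : 0 < d) (hp : 2 * d < p) (hp4 : p ≤ 4 * d) (hp3 : 3 < p)
    (s b : ℤ) (hs0 : s ≠ 0) (hs : |s| < 2 * d) : ‖T d p s b‖ ≤ 14 * Real.sqrt d := by
  haveI : Fact p.Prime := ⟨hpp⟩
  have hd' : (0 : ℝ) < d := by exact_mod_cast hd
  have hpN : 0 < p := hpp.pos
  have hp0 : (0 : ℝ) < p := by exact_mod_cast hpN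
  set m₀ : ℤ := round ((b : ℝ) * p / d) with hm₀
  set γ : ℝ := (b : ℝ) / d - (m₀ : ℝ) / p with hγ
  have hγb : |γ| ≤ 1 / (4 * d) := by
    have h1 := abs_sub_round ((b : ℝ) * p / d)
    have h2 : γ = ((b : ℝ) * p / d - round ((b : ℝ) * p / d)) / p := by
      rw [hγ, ← hm₀]; field_simp
    rw [h2, abs_div, abs_of_pos hp0, div_le_div_iff₀ hp0 (by positivity)]
    have h3 : (2 : ℝ) * d ≤ p := by exact_mod_cast hp.le
    nlinarith
  set c : ZMod p := ((-3 * s : ℤ) : ZMod p) with hc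
  set b' : ZMod p := ((m₀ - 3 * s ^ 2 : ℤ) : ZMod p) with hb'
  have hc0 : c ≠ 0 := by
    rw [hc]
    intro h
    rw [ZMod.intCast_zmod_eq_zero_iff_dvd] at h
    have h1 : (p : ℤ) ∣ 3 * s := by
      have := (dvd_neg (a := (p : ℤ)) (b := -3 * s)).2 h
      have e : -(-3 * s) = 3 * s := by ring
      rwa [e] at this
    rcases (Nat.prime_iff_prime_int.1 hpp).dvd_or_dvd h1 with h2 | h2
    · have := Int.le_of_dvd (by norm_num) h2
      omega
    · have := Int.le_of_dvd (abs_pos.2 hs0) ((dvd_abs _ _).2 h2)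
      omega
  have hterm : ∀ n : ℕ, g d p n * (starRingEnd ℂ) (g d p ((n : ℤ) + s)) * ee ((b : ℝ) * n / d) =
      ee (-((s ^ 3 : ℤ) : ℝ) / p) *
        (Wt d s γ n * ch (c * (n : ZMod p) ^ 2 + b' * (n : ZMod p))) := by
    intro n
    have h1 : ch (c * (n : ZMod p) ^ 2 + b' * (n : ZMod p)) =
        ee (((-3 * s * (n : ℤ) ^ 2 + (m₀ - 3 * s ^ 2) * n : ℤ) : ℝ) / p) := by
      rw [ee_div, hc, hb']
      congr 1
      push_cast; ring
    rw [h1]
    unfold g Wt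
    rw [map_mul, ee_conj, Complex.conj_ofReal]
    have h2 : ee ((((n : ℤ) ^ 3 : ℤ) : ℝ) / p) * ee (-(((((n : ℤ) + s) ^ 3 : ℤ) : ℝ) / p)) *
        ee ((b : ℝ) * n / d) = ee (-((s ^ 3 : ℤ) : ℝ) / p) * (ee (γ * ((n : ℤ) : ℝ)) *
          ee (((-3 * s * (n : ℤ) ^ 2 + (m₀ - 3 * s ^ 2) * n : ℤ) : ℝ) / p)) := by
      rw [← ee_add, ← ee_add, ← ee_add, ← ee_add]
      congr 1
      rw [hγ]
      push_cast
      field_simp
      ring
    calc _ = ((w d n * w d ((n : ℤ) + s) : ℝ) : ℂ) * (ee ((((n : ℤ) ^ 3 : ℤ) : ℝ) / p) *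
          ee (-(((((n : ℤ) + s) ^ 3 : ℤ) : ℝ) / p)) * ee ((b : ℝ) * n / d)) := by
          push_cast; ring
      _ = _ := by rw [h2]; ring
  unfold T
  rw [Finset.sum_congr rfl (fun n _ => hterm n), ← Finset.mul_sum, norm_mul, norm_ee, one_mul]
  exact quad_sum hd hp hp4 (by omega) s γ hγb c b' hc0

end Pool.Agent.X25.SIC
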